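import Pool.Agent.Helper69.SHT.St

set_option autoImplicit false

namespace Pool.Agent.Helper34.SHT

open Finset Filter Pool.Agent.Helper82.CN Pool.Agent.Helper11.PV Pool.Agent.Helper69.VX
open Pool.Agent.Helper69.UX Pool.Agent.Helper69.SHT

private lemma fr (a b e : ℝ) (h1 : a ≤ b) (h2 : b ≤ a + e) (h3 : Int.fract a + e < 1) :
    Int.fract a ≤ Int.fract b ∧ Int.fract b ≤ Int.fract a + e := by
  have h0 := Int.floor_le a
  have h4 := Int.self_sub_floor a
  have hf : ⌊b⌋ = ⌊a⌋ := by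
    rw [Int.floor_eq_iff]
    constructor
    · linarith
    · linarith
  have h5 := Int.self_sub_floor b
  rw [hf] at h5
  constructor <;> linarith

private lemma cnt (Q : ℕ → Prop) [DecidablePred Q] (N w : ℕ) (c : ℝ) (I : ℕ)
    (h : ∀ i < I, c ≤ (((Ioc (N + i * w) (N + i * w + w)).filter Q).card : ℝ)) :
    (I : ℝ) * c ≤ (((Ioc N (N + I * w)).filter Q).card : ℝ) := by
  induction I with
  | zero => simp
  | succ I ih =>
    have h1 := ih (fun i hi => h i (by omega))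
    have h2 := h I (by omega)
    have h3 : Ioc N (N + (I + 1) * w) = Ioc N (N + I * w) ∪ Ioc (N + I * w) (N + I * w + w) := by
      rw [Finset.Ioc_union_Ioc_eq_Ioc (by omega) (by omega)]
      congr 1
      ring
    rw [h3, filter_union, card_union_of_disjoint]
    · push_cast
      linarith
    · apply disjoint_filter_filter
      rw [Finset.disjoint_left]
      intro x hx hx'
      rw [Finset.mem_Ioc] at hx hx'
      omega

private lemma big (e : ℝ) (he : 0 < e) (M : ℝ) : ∃ n2 : ℕ, ∀ N : ℕ, n2 ≤ N → M ≤ (N : ℝ) ^ e := by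
  have h := ((tendsto_rpow_atTop he).comp tendsto_natCast_atTop_atTop).eventually_ge_atTop M
  obtain ⟨n2, hn⟩ := eventually_atTop.1 h
  exact ⟨n2, hn⟩

private lemma num1 (x y e th th' : ℝ) (hx : 1 ≤ x) (hy : y ≤ 2 * x) (hy1 : x ≤ y) (he : 0 < e)
    (he1 : e ≤ 1 / 16) (h3 : 3 ≤ x ^ e) (hth' : 0 ≤ th') (h1 : th' ≤ th + e)
    (h2 : th ≤ 1 - 8 * e) : y ^ (th' + e) ≤ (⌊x ^ (1 - 2 * e)⌋₊ : ℝ) := by
  have hx0 : 0 < x := by linarith
  have a1 : y ^ (th' + e) ≤ (2 * x) ^ (th' + e) :=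
    Real.rpow_le_rpow (by linarith) hy (by linarith)
  have a2 : (2 * x) ^ (th' + e) ≤ (2 * x) ^ (1 - 6 * e) :=
    Real.rpow_le_rpow_of_exponent_le (by linarith) (by linarith)
  have a3 : (2 * x) ^ (1 - 6 * e) = 2 ^ (1 - 6 * e) * x ^ (1 - 6 * e) :=
    Real.mul_rpow (by norm_num) hx0.le
  have a4 : (2 : ℝ) ^ (1 - 6 * e) ≤ 2 := by
    have := Real.rpow_le_rpow_of_exponent_le (x := (2 : ℝ)) (by norm_num)
      (show 1 - 6 * e ≤ 1 by linarith)
    rwa [Real.rpow_one] at this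
  have a5 : 1 ≤ x ^ (1 - 6 * e) := Real.one_le_rpow hx (by linarith)
  have a6 : x ^ (1 - 2 * e) = x ^ (1 - 6 * e) * x ^ (4 * e) := by
    rw [← Real.rpow_add hx0]
    congr 1
    ring
  have a7 : x ^ e ≤ x ^ (4 * e) := Real.rpow_le_rpow_of_exponent_le hx (by linarith)
  have a8 : 3 * x ^ (1 - 6 * e) ≤ x ^ (1 - 2 * e) := by
    rw [a6]
    nlinarith
  have a9 : x ^ (1 - 2 * e) - 1 < (⌊x ^ (1 - 2 * e)⌋₊ : ℝ) := Nat.sub_one_lt_floor _
  have a10 : 2 ^ (1 - 6 * e) * x ^ (1 - 6 * e) ≤ 2 * x ^ (1 - 6 * e) := by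
    nlinarith
  linarith

private lemma num2 (x e W : ℝ) (hx : 1 ≤ x) (he : 0 < e) (h3 : 1 / (6 * e) ≤ x ^ e)
    (hW : x ^ (1 - e) ≤ W) : (⌊x ^ (1 - 2 * e)⌋₊ : ℝ) ≤ 6 * e * W := by
  have hx0 : 0 < x := by linarith
  have a1 : (⌊x ^ (1 - 2 * e)⌋₊ : ℝ) ≤ x ^ (1 - 2 * e) :=
    Nat.floor_le (Real.rpow_nonneg hx0.le _)
  have a2 : x ^ (1 - 2 * e) * x ^ e = x ^ (1 - e) := by
    rw [← Real.rpow_add hx0]
    congr 1
    ring
  have a3 : 0 < x ^ (1 - 2 * e) := Real.rpow_pos_of_pos hx0 _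
  have a4 : x ^ (1 - 2 * e) * (1 / (6 * e)) ≤ W := by
    calc x ^ (1 - 2 * e) * (1 / (6 * e)) ≤ x ^ (1 - 2 * e) * x ^ e :=
          mul_le_mul_of_nonneg_left h3 a3.le
      _ ≤ W := by rw [a2]; exact hW
  have a5 : x ^ (1 - 2 * e) = 6 * e * (x ^ (1 - 2 * e) * (1 / (6 * e))) := by
    field_simp
  have a6 : 6 * e * (x ^ (1 - 2 * e) * (1 / (6 * e))) ≤ 6 * e * W :=
    mul_le_mul_of_nonneg_left a4 (by linarith)
  linarith

private lemma num3 (x y e th th' : ℝ) (hx : 1 ≤ x) (hy1 : x ≤ y) (he : 0 < e)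
    (he1 : e ≤ 1 / 16) (h1 : th ≤ th') (h0 : 1 / 2 ≤ th) :
    x ^ (th / 2 - 8 * e) ≤ y ^ (th' / 2 - e) := by
  calc x ^ (th / 2 - 8 * e) ≤ x ^ (th' / 2 - e) :=
        Real.rpow_le_rpow_of_exponent_le hx (by linarith)
    _ ≤ y ^ (th' / 2 - e) := Real.rpow_le_rpow (by linarith) hy1 (by linarith)

private lemma num4 (x y e : ℝ) (hx : 1 ≤ x) (hy1 : x ≤ y) (he : 0 < e) (he1 : e ≤ 1 / 16) :
    (⌊x ^ (1 - 2 * e)⌋₊ : ℝ) ≤ y ^ (1 - e) := by
  have hx0 : 0 < x := by linarith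
  calc (⌊x ^ (1 - 2 * e)⌋₊ : ℝ) ≤ x ^ (1 - 2 * e) := Nat.floor_le (Real.rpow_nonneg hx0.le _)
    _ ≤ x ^ (1 - e) := Real.rpow_le_rpow_of_exponent_le hx (by linarith)
    _ ≤ y ^ (1 - e) := Real.rpow_le_rpow hx0.le hy1 (by linarith)

private lemma num5 (W W0 I th e : ℝ) (he : 0 < e) (h0 : 0 ≤ th) (h1 : th ≤ 1 - 8 * e)
    (hI : W - W0 ≤ I * W0) (hW : W0 ≤ 6 * e * W) (hW0 : 0 ≤ W0) :
    (1 - th - 8 * e) * W ≤ I * ((1 - th - 2 * e) * W0) := by
  have a1 : 0 ≤ 1 - th - 2 * e := by linarith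
  have a2 : (1 - th - 2 * e) * (W - W0) ≤ (1 - th - 2 * e) * (I * W0) :=
    mul_le_mul_of_nonneg_left hI a1
  have a3 : (1 - th - 2 * e) * W0 ≤ W0 := by
    have : 0 ≤ (th + 2 * e) * W0 := mul_nonneg (by linarith) hW0
    linarith
  linarith

theorem hSUB : StCTW → StALN → StSUB := by
  intro hCTW hALN p ε hp0 hp1 hε
  have hp2 : p < 1 := by
    have : 0 < 1 / Real.exp 2 := by positivity
    linarith
  have hL : 0 < bb p := by
    unfold bb
    apply Real.log_pos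
    rw [lt_div_iff₀ (by linarith)]
    linarith
  by_cases hε1 : 1 / 2 < ε
  · refine ⟨1, one_pos, 0, fun N W _ hth _ _ => ?_⟩
    have h1 : (1 - Int.fract (a0 p N) - ε) * (W : ℝ) ≤ 0 :=
      mul_nonpos_of_nonpos_of_nonneg (by linarith) (Nat.cast_nonneg W)
    exact h1.trans (Nat.cast_nonneg _)
  push Not at hε1
  obtain ⟨e, rfl⟩ : ∃ e : ℝ, ε = 8 * e := ⟨ε / 8, by ring⟩
  have he : 0 < e := by linarith
  have he1 : e ≤ 1 / 16 := by linarith
  obtain ⟨n1, hn1⟩ := hCTW p e hp0 hp1 he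
  obtain ⟨n2, hn2⟩ := big e he (max 3 (1 / (6 * e)))
  refine ⟨min 1 (bb p * e / 2) / 2, by positivity, max n1 (max n2 3), fun N W hN hth hW1 hW2 => ?_⟩
  have hNn1 : n1 ≤ N := (le_max_left _ _).trans hN
  have hNn2 : n2 ≤ N := (le_max_left _ _).trans ((le_max_right _ _).trans hN)
  have hN3 : 3 ≤ N := (le_max_right _ _).trans ((le_max_right _ _).trans hN)
  have hN3' : (3 : ℝ) ≤ N := by exact_mod_cast hN3
  have hx : (1 : ℝ) ≤ N := by linarith
  have hb := hn2 N hNn2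
  have hb3 : 3 ≤ (N : ℝ) ^ e := (le_max_left _ _).trans hb
  have hb6 : 1 / (6 * e) ≤ (N : ℝ) ^ e := (le_max_right _ _).trans hb
  obtain ⟨th, hthd⟩ : ∃ th : ℝ, th = Int.fract (a0 p N) := ⟨_, rfl⟩
  rw [← hthd] at hth hW1 ⊢
  by_cases hbig : 1 - 8 * e < th
  · have h1 : (1 - th - 8 * e) * (W : ℝ) ≤ 0 :=
      mul_nonpos_of_nonpos_of_nonneg (by linarith) (Nat.cast_nonneg W)
    exact h1.trans (Nat.cast_nonneg _)
  push Not at hbig
  by_cases hA : (W : ℝ) ≤ (N : ℝ) ^ (1 - e)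
  · -- short interval
    have h1 : (N : ℝ) ^ (th + e) ≤ W :=
      (Real.rpow_le_rpow_of_exponent_le hx (by linarith)).trans hW1
    have h2 := hn1 N W hNn1 (hthd ▸ hth) (hthd ▸ h1) hA
    rw [← hthd] at h2
    have h3 : (1 - th - 8 * e) * (W : ℝ) ≤ (1 - th - e) * W :=
      mul_le_mul_of_nonneg_right (by linarith) (Nat.cast_nonneg W)
    refine h3.trans (h2.trans ?_)
    have h4 : (N : ℝ) ^ (th / 2 - 8 * e) ≤ (N : ℝ) ^ (th / 2 - e) :=
      Real.rpow_le_rpow_of_exponent_le hx (by linarith)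
    exact_mod_cast card_le_card (monotone_filter_right _ (fun n _ hn => h4.trans hn))
  · push Not at hA
    obtain ⟨w, hwd⟩ : ∃ w : ℕ, w = ⌊(N : ℝ) ^ (1 - 2 * e)⌋₊ := ⟨_, rfl⟩
    have hwpos : 0 < w := by
      have h1 := num1 N N e th th hx (by linarith) le_rfl he he1 hb3 (by linarith)
        (by linarith) hbig
      rw [← hwd] at h1
      have h2 : (1 : ℝ) ≤ (N : ℝ) ^ (th + e) := Real.one_le_rpow hx (by linarith)
      have h3 : (1 : ℝ) ≤ w := h2.trans h1
      exact_mod_cast lt_of_lt_of_le one_pos h3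
    have hη1 : min 1 (bb p * e / 2) / 2 ≤ 1 / 2 := by
      have := min_le_left 1 (bb p * e / 2)
      linarith
    have hη2 : min 1 (bb p * e / 2) / 2 ≤ bb p * e / 4 := by
      have := min_le_right 1 (bb p * e / 2)
      linarith
    have hIW : W / w * w ≤ W := Nat.div_mul_le_self W w
    have hIW2 : (W : ℝ) - w ≤ ((W / w : ℕ) : ℝ) * w := by
      have h1 : W < (W / w + 1) * w := by
        have h2 := Nat.div_add_mod W w
        have h3 := Nat.mod_lt W hwpos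
        nlinarith
      have h2 : (W : ℝ) < (((W / w + 1) * w : ℕ) : ℝ) := by exact_mod_cast h1
      push_cast at h2
      linarith
    have hsub : ∀ i < W / w, (1 - th - 2 * e) * (w : ℝ) ≤
        (((Ioc (N + i * w) (N + i * w + w)).filter
          (fun n => (N : ℝ) ^ (th / 2 - 8 * e) ≤ sn p n)).card : ℝ) := by
      intro i hi
      have hiw : i * w ≤ W := (Nat.mul_le_mul_right w hi.le).trans hIW
      have hiw' : ((i * w : ℕ) : ℝ) ≤ W := by exact_mod_cast hiw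
      have hyx : (N : ℝ) ≤ ((N + i * w : ℕ) : ℝ) := by exact_mod_cast Nat.le_add_right _ _
      have hye : ((N + i * w : ℕ) : ℝ) = N + ((i * w : ℕ) : ℝ) := by push_cast; ring
      have hWN : (W : ℝ) ≤ N := by
        have : min 1 (bb p * e / 2) / 2 * (N : ℝ) ≤ 1 / 2 * N :=
          mul_le_mul_of_nonneg_right hη1 (by linarith)
        linarith
      have hy2 : ((N + i * w : ℕ) : ℝ) ≤ 2 * N := by rw [hye]; linarith
      obtain ⟨b1, b2⟩ := hALN p N ((N + i * w : ℕ) : ℝ) hp0 hp2 hN3' hyx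
      have b3 : 2 / bb p * ((((N + i * w : ℕ) : ℝ) - N) / N) ≤ e / 2 := by
        have c1 : (((N + i * w : ℕ) : ℝ) - N) / N ≤ bb p * e / 4 := by
          rw [div_le_iff₀ (by linarith), hye]
          have : min 1 (bb p * e / 2) / 2 * (N : ℝ) ≤ bb p * e / 4 * N :=
            mul_le_mul_of_nonneg_right hη2 (by linarith)
          linarith
        have c2 : 2 / bb p * ((((N + i * w : ℕ) : ℝ) - N) / N) ≤ 2 / bb p * (bb p * e / 4) :=
          mul_le_mul_of_nonneg_left c1 (by positivity)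
        have c3 : 2 / bb p * (bb p * e / 4) = e / 2 := by
          field_simp
          ring
        linarith
      obtain ⟨d1, d2⟩ := fr (a0 p N) (a0 p ((N + i * w : ℕ) : ℝ)) e b1 (by linarith)
        (by rw [← hthd]; linarith)
      rw [← hthd] at d1 d2
      have f1 := hn1 (N + i * w) w (hNn1.trans (Nat.le_add_right _ _)) (by linarith)
        (by
          have := num1 N ((N + i * w : ℕ) : ℝ) e th (Int.fract (a0 p ((N + i * w : ℕ) : ℝ))) hx hy2
            hyx he he1 hb3 (by linarith) d2 hbig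
          rw [← hwd] at this
          exact this)
        (by
          have := num4 N ((N + i * w : ℕ) : ℝ) e hx hyx he he1
          rw [← hwd] at this
          exact this)
      have g1 : (1 - th - 2 * e) * (w : ℝ) ≤
          (1 - Int.fract (a0 p ((N + i * w : ℕ) : ℝ)) - e) * w :=
        mul_le_mul_of_nonneg_right (by linarith) (Nat.cast_nonneg w)
      refine g1.trans (f1.trans ?_)
      have g2 := num3 N ((N + i * w : ℕ) : ℝ) e th (Int.fract (a0 p ((N + i * w : ℕ) : ℝ))) hx hyx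
        he he1 d1 hth
      exact_mod_cast card_le_card (monotone_filter_right _ (fun n _ hn => g2.trans hn))
    have hc := cnt (fun n => (N : ℝ) ^ (th / 2 - 8 * e) ≤ sn p n) N w _ (W / w) hsub
    have hs : ((((Ioc N (N + W / w * w)).filter
        (fun n => (N : ℝ) ^ (th / 2 - 8 * e) ≤ sn p n)).card : ℕ) : ℝ) ≤
        (((Ioc N (N + W)).filter (fun n => (N : ℝ) ^ (th / 2 - 8 * e) ≤ sn p n)).card : ℝ) := by
      exact_mod_cast card_le_card (filter_subset_filter _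
        (Ioc_subset_Ioc_right (Nat.add_le_add_left hIW N)))
    have hw6 := num2 N e W hx he hb6 hA.le
    rw [← hwd] at hw6
    have hfin := num5 W w ((W / w : ℕ) : ℝ) th e he (by linarith) hbig hIW2 hw6
      (Nat.cast_nonneg w)
    exact hfin.trans (hc.trans hs)

end Pool.Agent.Helper34.SHT
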